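import Pool.Agent.W593.ZT.Stm

/-! Project ZT, part K3L2B. -/

open scoped Classical

set_option autoImplicit false

namespace Pool.Agent.W724.ZT

open Pool.Agent.W593.ZT

theorem nc_sub_wr {V G : Type} [AddCommGroup G] (c : V → V → G) (T : AddSubgroup G) (a : G)
    (W H : Finset V) : nc c T W H ⊆ wr c T a W H := by
  intro z hz
  rw [nc, Finset.mem_filter] at hz
  rw [wr, Finset.mem_filter]
  refine ⟨hz.1, fun hall => hz.2 ?_⟩
  intro x hx y hy
  rw [Cs, Finset.mem_image] at hx hy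
  obtain ⟨h, hh, rfl⟩ := hx
  obtain ⟨h', hh', rfl⟩ := hy
  have := T.sub_mem (hall h hh) (hall h' hh')
  simpa using this

theorem mem_va {V G : Type} [AddCommGroup G] (c : V → V → G) (T : AddSubgroup G) (a : G)
    (W H : Finset V) (z : V) :
    z ∈ va c T a W H ↔ (z ∈ W ∧ z ∉ H) ∧ ∀ h ∈ H, c z h - a ∈ T := by
  simp only [va, Finset.mem_filter, Finset.mem_sdiff]

theorem mem_wr {V G : Type} [AddCommGroup G] (c : V → V → G) (T : AddSubgroup G) (a : G)
    (W H : Finset V) (z : V) :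
    z ∈ wr c T a W H ↔ (z ∈ W ∧ z ∉ H) ∧ ¬ ∀ h ∈ H, c z h - a ∈ T := by
  simp only [wr, Finset.mem_filter, Finset.mem_sdiff]

theorem core (hC3 : S_C3) (hCOMP : S_COMP) (hNSL : S_NSL) {V G : Type} [Fintype V]
    [AddCommGroup G] [Fintype G] (c : V → V → G) (M S' : AddSubgroup G)
    (B W Hp L : Finset V) (b1 z0 : V) (a : G) (s N : ℕ) (hz : V → V) (hctx : Ctx c)
    (hk3 : Nat.card M = 3) (hMS : M ≤ S') (hne : S' ≠ ⊤) (hBHp : B ⊆ Hp)
    (hb1 : b1 ∈ B) (hz0 : z0 ∈ W \ Hp)
    (hroot : ∀ y ∈ W, y ≠ z0 → y ∉ nc c S' W Hp → c z0 y - a ∈ S')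
    (hwrb : (wr c S' a W Hp).card + 2 ≤ S'.index) (hL : L ⊆ va c S' a W Hp \ {z0})
    (hLs : L.card ≤ s) (hhz : ∀ z ∈ L, hz z ∈ Hp)
    (hcov : Cov M S' L (fun z => {c z b1, c z (hz z)})) (hWc : N ≤ W.card)
    (Z : Finset V) (b' b'' : V) (A : V → Finset G) (hZ : Z ⊆ (Hp \ B) \ L.image hz)
    (hb' : b' ∈ B) (hb'' : b'' ∈ B) (hA : ∀ z ∈ Z, A z ⊆ {c z b1, c z b', c z b''})
    (hAb : ∀ z ∈ Z, c z b1 ∈ A z) (hAM : ∀ z ∈ Z, Tc M (A z))
    (hA2 : 2 ≤ ∑ z ∈ Z, ((A z).card - 1)) (hsum : ∑ z ∈ Z, c z b1 - Z.card • a ∈ S') :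
    N ≤ 2 * S'.index + 2 * s + Z.card := by
  set Nd : Finset V := L.image hz with hNd
  set Hn : Finset V := insert b1 (insert z0 (insert b' (insert b'' Nd))) with hHn
  have hLva : ∀ z ∈ L, z ∈ W ∧ z ∉ Hp ∧ z ≠ z0 ∧ ∀ h ∈ Hp, c z h - a ∈ S' := by
    intro z hzL
    have h1 := hL hzL
    rw [Finset.mem_sdiff, mem_va, Finset.mem_singleton] at h1
    exact ⟨h1.1.1.1, h1.1.1.2, h1.2, h1.1.2⟩
  have hZm : ∀ z ∈ Z, z ∈ Hp ∧ z ∉ B ∧ z ∉ Nd := by
    intro z hzZ
    have h1 := hZ hzZ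
    rw [Finset.mem_sdiff, Finset.mem_sdiff] at h1
    exact ⟨h1.1.1, h1.1.2, h1.2⟩
  have hz0' := Finset.mem_sdiff.mp hz0
  have hNdHp : ∀ x ∈ Nd, x ∈ Hp := by
    intro x hx
    rw [hNd, Finset.mem_image] at hx
    obtain ⟨z, hzL, rfl⟩ := hx
    exact hhz z hzL
  have hc1 : Cov ⊥ M Z A := hC3 V G M hk3 Z A (fun z h => ⟨⟨_, hAb z h⟩, hAM z h⟩) hA2
  have hdisj : Disjoint Z L := by
    rw [Finset.disjoint_left]
    intro z h1 h2
    exact (hLva z h2).2.1 (hZm z h1).1
  have hc2 := hCOMP V G ⊥ M S' Z L A (fun z => {c z b1, c z (hz z)}) hMS hdisj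
    (fun z h => ⟨⟨_, hAb z h⟩, hAM z h⟩) (fun z _ => ⟨c z b1, by simp⟩) hc1 hcov
  have hdisj2 : Disjoint Hn (Z ∪ L) := by
    rw [Finset.disjoint_left]
    intro x h1 h2
    rw [hHn] at h1
    simp only [Finset.mem_insert] at h1
    rw [Finset.mem_union] at h2
    rcases h2 with h2 | h2
    · obtain ⟨e1, e2, e3⟩ := hZm x h2
      rcases h1 with rfl | rfl | rfl | rfl | h1
      · exact e2 hb1
      · exact hz0'.2 e1
      · exact e2 hb'
      · exact e2 hb''
      · exact e3 h1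
    · obtain ⟨e1, e2, e3, e4⟩ := hLva x h2
      rcases h1 with rfl | rfl | rfl | rfl | h1
      · exact e2 (hBHp hb1)
      · exact e3 rfl
      · exact e2 (hBHp hb')
      · exact e2 (hBHp hb'')
      · exact e2 (hNdHp x h1)
  have hmem : ∀ h ∈ Hn, ∀ z : V, c z h ∈ Cs c Hn z := by
    intro h hh z
    rw [Cs, Finset.mem_image]
    exact ⟨h, hh, rfl⟩
  have hb1n : b1 ∈ Hn := by simp [hHn]
  have hz0n : z0 ∈ Hn := by simp [hHn]
  have hb'n : b' ∈ Hn := by simp [hHn]
  have hb''n : b'' ∈ Hn := by simp [hHn]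
  have hNdn : ∀ x ∈ Nd, x ∈ Hn := by
    intro x hx
    rw [hHn]
    simp [hx]
  have hsub : ∀ z ∈ Z ∪ L, (if z ∈ Z then A z else {c z b1, c z (hz z)}) ⊆ Cs c Hn z := by
    intro z hzz
    by_cases hzZ : z ∈ Z
    · rw [if_pos hzZ]
      intro x hx
      have := hA z hzZ hx
      simp only [Finset.mem_insert, Finset.mem_singleton] at this
      rcases this with rfl | rfl | rfl
      · exact hmem _ hb1n z
      · exact hmem _ hb'n z
      · exact hmem _ hb''n z
    · rw [if_neg hzZ]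
      have hzL : z ∈ L := by
        rcases Finset.mem_union.mp hzz with h | h
        · exact absurd h hzZ
        · exact h
      intro x hx
      simp only [Finset.mem_insert, Finset.mem_singleton] at hx
      rcases hx with rfl | rfl
      · exact hmem _ hb1n z
      · exact hmem _ (hNdn _ (Finset.mem_image_of_mem hz hzL)) z
  have hr0 : ∀ z ∈ Z ∪ L, c z b1 ∈ (if z ∈ Z then A z else {c z b1, c z (hz z)}) := by
    intro z hzz
    by_cases hzZ : z ∈ Z
    · rw [if_pos hzZ]
      exact hAb z hzZ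
    · rw [if_neg hzZ]
      simp
  have hsum2 : ∑ z ∈ Z ∪ L, c z b1 - (Z ∪ L).card • a ∈ S' := by
    rw [Finset.sum_union hdisj, Finset.card_union_of_disjoint hdisj, add_smul]
    have h1 : ∑ z ∈ L, c z b1 - L.card • a ∈ S' := by
      have : ∑ z ∈ L, c z b1 - L.card • a = ∑ z ∈ L, (c z b1 - a) := by
        rw [Finset.sum_sub_distrib, Finset.sum_const]
      rw [this]
      exact S'.sum_mem (fun z hzL => (hLva z hzL).2.2.2 b1 (hBHp hb1))
    have h2 := S'.add_mem hsum h1
    have h3 : ∑ x ∈ Z, c x b1 + ∑ x ∈ L, c x b1 - (Z.card • a + L.card • a) =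
        ∑ z ∈ Z, c z b1 - Z.card • a + (∑ z ∈ L, c z b1 - L.card • a) := by abel
    rw [h3]
    exact h2
  have hfin := hNSL V G c hctx S' a Hn (Z ∪ L)
    (fun z => if z ∈ Z then A z else {c z b1, c z (hz z)}) (fun z => c z b1) hne ⟨b1, hb1n⟩
    hdisj2 hsub hc2 hr0 hsum2
  have hsubset : W \ (Hn ∪ (Z ∪ L) ∪ nc c S' W Hp) ⊆
      (Finset.univ \ (Hn ∪ (Z ∪ L))).filter (fun y => ∃ h ∈ Hn, c y h - a ∈ S') := by
    intro y hy
    rw [Finset.mem_sdiff, Finset.mem_union, not_or] at hy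
    rw [Finset.mem_filter, Finset.mem_sdiff]
    refine ⟨⟨Finset.mem_univ _, hy.2.1⟩, z0, hz0n, ?_⟩
    have hyz0 : y ≠ z0 := by
      rintro rfl
      exact hy.2.1 (Finset.mem_union_left _ hz0n)
    rw [hctx.sym y z0]
    exact hroot y hy.1 hyz0 hy.2.2
  have hcard1 := Finset.card_le_card hsubset
  have hcard2 : W.card ≤ (W \ (Hn ∪ (Z ∪ L) ∪ nc c S' W Hp)).card +
      (Hn ∪ (Z ∪ L) ∪ nc c S' W Hp).card := by
    have := Finset.card_le_card_sdiff_add_card (s := W) (t := Hn ∪ (Z ∪ L) ∪ nc c S' W Hp)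
    omega
  have hcard3 : (Hn ∪ (Z ∪ L) ∪ nc c S' W Hp).card ≤ Hn.card + (Z.card + L.card) +
      (nc c S' W Hp).card := by
    have e1 := Finset.card_union_le (Hn ∪ (Z ∪ L)) (nc c S' W Hp)
    have e2 := Finset.card_union_le Hn (Z ∪ L)
    have e3 := Finset.card_union_le Z L
    omega
  have hncw := Finset.card_le_card (nc_sub_wr c S' a W Hp)
  have hNdc : Nd.card ≤ L.card := Finset.card_image_le
  have hHnc : Hn.card ≤ Nd.card + 4 := by
    rw [hHn]
    have e1 := Finset.card_insert_le b1 (insert z0 (insert b' (insert b'' Nd)))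
    have e2 := Finset.card_insert_le z0 (insert b' (insert b'' Nd))
    have e3 := Finset.card_insert_le b' (insert b'' Nd)
    have e4 := Finset.card_insert_le b'' Nd
    omega
  omega

theorem mem_Cs {V G : Type} (c : V → V → G) (B : Finset V) (z b : V) (hb : b ∈ B) :
    c z b ∈ Cs c B z := Finset.mem_image_of_mem _ hb

theorem tc_sub {G : Type} [AddCommGroup G] (T : AddSubgroup G) (A A' : Finset G) (h : A' ⊆ A)
    (hA : Tc T A) : Tc T A' := fun x hx y hy => hA x (h hx) y (h hy)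

theorem two {V G : Type} [AddCommGroup G] (c : V → V → G) (M : AddSubgroup G) (B Z : Finset V)
    (b1 : V) (hb1 : b1 ∈ B) (hTc : ∀ z ∈ Z, Tc M (Cs c B z)) (z1 z2 : V) (hz1 : z1 ∈ Z)
    (hz2 : z2 ∈ Z) (hne : z1 ≠ z2) (h1 : 1 ≤ (Cs c B z1).card - 1)
    (h2 : 1 ≤ (Cs c B z2).card - 1) :
    ∃ b' ∈ B, ∃ b'' ∈ B, ∃ A : V → Finset G, (∀ z ∈ Z, A z ⊆ {c z b1, c z b', c z b''}) ∧
      (∀ z ∈ Z, c z b1 ∈ A z) ∧ (∀ z ∈ Z, Tc M (A z)) ∧ 2 ≤ ∑ z ∈ Z, ((A z).card - 1) := by
  obtain ⟨x, hx, hxne⟩ := Finset.exists_mem_ne (show 1 < (Cs c B z1).card by omega) (c z1 b1)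
  obtain ⟨y, hy, hyne⟩ := Finset.exists_mem_ne (show 1 < (Cs c B z2).card by omega) (c z2 b1)
  rw [Cs, Finset.mem_image] at hx hy
  obtain ⟨b', hb', rfl⟩ := hx
  obtain ⟨b'', hb'', rfl⟩ := hy
  refine ⟨b', hb', b'', hb'', fun z => if z = z1 then {c z b1, c z b'} else
    if z = z2 then {c z b1, c z b''} else {c z b1}, ?_, ?_, ?_, ?_⟩
  · intro z _
    by_cases e1 : z = z1
    · simp only [e1, if_true]
      intro t ht
      simp only [Finset.mem_insert, Finset.mem_singleton] at ht ⊢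
      tauto
    · simp only [e1, if_false]
      by_cases e2 : z = z2
      · simp only [e2, if_true]
        intro t ht
        simp only [Finset.mem_insert, Finset.mem_singleton] at ht ⊢
        tauto
      · simp only [e2, if_false]
        intro t ht
        simp only [Finset.mem_insert, Finset.mem_singleton] at ht ⊢
        tauto
  · intro z _
    by_cases e1 : z = z1
    · simp [e1]
    · by_cases e2 : z = z2
      · simp only [if_neg e1, if_pos e2]
        simp
      · simp [e1, e2]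
  · intro z hz
    refine tc_sub M (Cs c B z) _ ?_ (hTc z hz)
    intro t ht
    have hB : ∀ b ∈ B, c z b ∈ Cs c B z := fun b hb => mem_Cs c B z b hb
    by_cases e1 : z = z1
    · simp only [e1, if_true, Finset.mem_insert, Finset.mem_singleton] at ht
      rw [← e1] at ht
      rcases ht with rfl | rfl
      · exact hB _ hb1
      · exact hB _ hb'
    · by_cases e2 : z = z2
      · simp only [e1, if_false, e2, if_true, Finset.mem_insert, Finset.mem_singleton] at ht
        rw [if_neg (fun h => hne h.symm)] at ht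
        simp only [Finset.mem_insert, Finset.mem_singleton] at ht
        rw [← e2] at ht
        rcases ht with rfl | rfl
        · exact hB _ hb1
        · exact hB _ hb''
      · simp only [e1, if_false, e2, Finset.mem_singleton] at ht
        rw [ht]
        exact hB _ hb1
  · have hsub : ({z1, z2} : Finset V) ⊆ Z := by
      intro t ht
      simp only [Finset.mem_insert, Finset.mem_singleton] at ht
      rcases ht with rfl | rfl
      · exact hz1
      · exact hz2
    refine le_trans ?_ (Finset.sum_le_sum_of_subset hsub)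
    rw [Finset.sum_pair hne]
    have e1 : ({c z1 b1, c z1 b'} : Finset G).card = 2 := Finset.card_pair (fun h => hxne h.symm)
    have e2 : ({c z2 b1, c z2 b''} : Finset G).card = 2 := Finset.card_pair (fun h => hyne h.symm)
    have hne' : ¬ z2 = z1 := fun h => hne h.symm
    simp only [if_true, hne', if_false, e1, e2]
    norm_num

theorem sum_union_le' {V : Type} (s t : Finset V) (f : V → ℕ) :
    ∑ x ∈ s ∪ t, f x ≤ ∑ x ∈ s, f x + ∑ x ∈ t, f x := by
  have := Finset.sum_union_inter (s₁ := s) (s₂ := t) (f := f)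
  omega

theorem sum_le_two {V : Type} (s : Finset V) (f : V → ℕ) (h : ∀ x ∈ s, f x ≤ 2) :
    ∑ x ∈ s, f x ≤ 2 * s.card := by
  have := Finset.sum_le_card_nsmul s f 2 h
  simpa [mul_comm] using this

theorem k3l2b (hW : S_K3W) (hC3 : S_C3) (hCOMP : S_COMP) (hNSL : S_NSL) (hDAV : S_DAV) :
    S_K3L2B := by
  intro V G _ _ _ c M B W b1 S' a Hp z0 s hK hWok hb1 hP h1 h2 h3 hva
  obtain ⟨hUs, hG, hV, hsumU⟩ := hW V G c M B hK
  obtain ⟨L, hz, hL, hLs, hhz, hcov⟩ := hP.lv {z0} (by simp)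
  have hnu := hK.nu
  have hwrb := hP.wrb
  have hv2 : 2 ≤ S'.index := by omega
  have hw2 : ∀ z ∈ Us c M B, (Cs c B z).card - 1 ≤ 2 := by
    intro z hz
    have := (hUs z hz).2.2
    omega
  have hWc : 3 * M.index ≤ W.card := by
    have hc := hK.ctx.card
    rcases hWok with ⟨rfl, -⟩ | ⟨y, -, -, rfl⟩
    · rw [Finset.card_univ]
      omega
    · rw [Finset.card_erase_of_mem (Finset.mem_univ y), Finset.card_univ]
      omega
  -- the pieces of `Us`
  have hcovU : Us c M B ⊆ (((Us c M B ∩ va c S' a W Hp) ∪ (Us c M B ∩ wr c S' a W Hp)) ∪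
      (Us c M B ∩ (Hp \ B))) ∪ (Us c M B \ W) := by
    intro z hzU
    have hzB : z ∉ B := by
      rw [Us, Finset.mem_sdiff, Finset.mem_sdiff] at hzU
      exact hzU.1.2
    simp only [Finset.mem_union, Finset.mem_inter, Finset.mem_sdiff]
    by_cases hzW : z ∈ W
    · by_cases hzH : z ∈ Hp
      · exact Or.inl (Or.inr ⟨hzU, hzH, hzB⟩)
      · by_cases hall : ∀ h ∈ Hp, c z h - a ∈ S'
        · exact Or.inl (Or.inl (Or.inl ⟨hzU, (mem_va c S' a W Hp z).mpr ⟨⟨hzW, hzH⟩, hall⟩⟩))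
        · exact Or.inl (Or.inl (Or.inr ⟨hzU, (mem_wr c S' a W Hp z).mpr ⟨⟨hzW, hzH⟩, hall⟩⟩))
    · exact Or.inr ⟨hzU, hzW⟩
  have hs0 := Finset.sum_le_sum_of_subset (f := fun z => (Cs c B z).card - 1) hcovU
  have hs1 := sum_union_le' (((Us c M B ∩ va c S' a W Hp) ∪ (Us c M B ∩ wr c S' a W Hp)) ∪
      (Us c M B ∩ (Hp \ B))) (Us c M B \ W) (fun z => (Cs c B z).card - 1)
  have hs2 := sum_union_le' ((Us c M B ∩ va c S' a W Hp) ∪ (Us c M B ∩ wr c S' a W Hp))
      (Us c M B ∩ (Hp \ B)) (fun z => (Cs c B z).card - 1)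
  have hs3 := sum_union_le' (Us c M B ∩ va c S' a W Hp) (Us c M B ∩ wr c S' a W Hp)
      (fun z => (Cs c B z).card - 1)
  have hs4 : ∑ z ∈ Us c M B ∩ wr c S' a W Hp, ((Cs c B z).card - 1) ≤
      2 * (wr c S' a W Hp).card := by
    refine le_trans (sum_le_two _ _ (fun z hz => hw2 z (Finset.mem_inter.mp hz).1)) ?_
    have := Finset.card_le_card (Finset.inter_subset_right (s₁ := Us c M B)
      (s₂ := wr c S' a W Hp))
    omega
  have hs5 : ∑ z ∈ Us c M B \ W, ((Cs c B z).card - 1) ≤ 2 := by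
    refine le_trans (sum_le_two _ _ (fun z hz => hw2 z (Finset.mem_sdiff.mp hz).1)) ?_
    have : (Us c M B \ W).card ≤ 1 := by
      rcases hWok with ⟨rfl, -⟩ | ⟨y, -, -, rfl⟩
      · rw [Finset.sdiff_eq_empty_iff_subset.mpr (Finset.subset_univ _), Finset.card_empty]
        omega
      · rw [← Finset.card_singleton y]
        refine Finset.card_le_card ?_
        intro z hz
        rw [Finset.mem_sdiff] at hz
        rw [Finset.mem_singleton]
        by_contra hne
        exact hz.2 (Finset.mem_erase.mpr ⟨hne, Finset.mem_univ _⟩)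
    omega
  set Nd : Finset V := L.image hz with hNd
  have hNdc : Nd.card ≤ s := le_trans Finset.card_image_le hLs
  set Q0 : Finset V := (Us c M B ∩ (Hp \ B)) \ Nd with hQ0
  have hs6 : ∑ z ∈ Us c M B ∩ (Hp \ B), ((Cs c B z).card - 1) ≤
      ∑ z ∈ Q0, ((Cs c B z).card - 1) + 2 * s := by
    have e1 : Us c M B ∩ (Hp \ B) ⊆ Q0 ∪ ((Us c M B ∩ (Hp \ B)) ∩ Nd) := by
      intro z hz
      rw [Finset.mem_union, hQ0, Finset.mem_sdiff, Finset.mem_inter (s₁ := Us c M B ∩ (Hp \ B))]
      by_cases hzN : z ∈ Nd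
      · exact Or.inr ⟨hz, hzN⟩
      · exact Or.inl ⟨hz, hzN⟩
    have e2 := Finset.sum_le_sum_of_subset (f := fun z => (Cs c B z).card - 1) e1
    have e3 := sum_union_le' Q0 ((Us c M B ∩ (Hp \ B)) ∩ Nd) (fun z => (Cs c B z).card - 1)
    have e4 : ∑ z ∈ (Us c M B ∩ (Hp \ B)) ∩ Nd, ((Cs c B z).card - 1) ≤ 2 * s := by
      refine le_trans (sum_le_two _ _ (fun z hz => hw2 z
        (Finset.mem_inter.mp (Finset.mem_inter.mp hz).1).1)) ?_
      have := Finset.card_le_card (Finset.inter_subset_right (s₁ := Us c M B ∩ (Hp \ B))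
        (s₂ := Nd))
      omega
    omega
  have hQ0U : ∀ z ∈ Q0, z ∈ Us c M B := fun z hz =>
    (Finset.mem_inter.mp (Finset.mem_sdiff.mp hz).1).1
  have hQ0H : Q0 ⊆ (Hp \ B) \ Nd := by
    intro z hz
    rw [hQ0, Finset.mem_sdiff] at hz
    rw [Finset.mem_sdiff]
    exact ⟨(Finset.mem_inter.mp hz.1).2, hz.2⟩
  have hsplit := Finset.sum_filter_add_sum_filter_not Q0 (fun h => ∀ b ∈ B, c h b - a ∈ S')
    (fun z => (Cs c B z).card - 1)
  set R : Finset V := Q0.filter (fun h => ∀ b ∈ B, c h b - a ∈ S') with hR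
  set X : Finset V := Q0.filter (fun h => ¬ ∀ b ∈ B, c h b - a ∈ S') with hX
  have hcore := core hC3 hCOMP hNSL c M S' B W Hp L b1 z0 a s (3 * M.index) hz hK.ctx hK.k3
    hP.le hP.ne hP.sub hb1 hP.z0W hP.root hP.wrb hL hLs hhz hcov hWc
  by_cases hcase : 2 ≤ ∑ z ∈ R, ((Cs c B z).card - 1)
  · by_cases hbig : ∃ z ∈ R, 2 ≤ (Cs c B z).card - 1
    · obtain ⟨z, hzR, hz2⟩ := hbig
      have hzQ : z ∈ Q0 := (Finset.mem_filter.mp hzR).1
      have hzr : ∀ b ∈ B, c z b - a ∈ S' := (Finset.mem_filter.mp hzR).2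
      obtain ⟨x, hx, hxne⟩ := Finset.exists_mem_ne (show 1 < (Cs c B z).card by omega) (c z b1)
      rw [Cs, Finset.mem_image] at hx
      obtain ⟨b', hb', rfl⟩ := hx
      have hcp : ({c z b1, c z b'} : Finset G).card = 2 :=
        Finset.card_pair (fun h => hxne h.symm)
      obtain ⟨y, hy, hyn⟩ := Finset.exists_mem_notMem_of_card_lt_card
        (s := ({c z b1, c z b'} : Finset G)) (t := Cs c B z) (by omega)
      rw [Cs, Finset.mem_image] at hy
      obtain ⟨b'', hb'', rfl⟩ := hy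
      simp only [Finset.mem_insert, Finset.mem_singleton, not_or] at hyn
      have hc3 : ({c z b1, c z b', c z b''} : Finset G).card = 3 :=
        Finset.card_eq_three.mpr ⟨_, _, _, fun h => hxne h.symm, fun h => hyn.1 h.symm,
          fun h => hyn.2 h.symm, rfl⟩
      have := hcore {z} b' b'' (fun t => {c t b1, c t b', c t b''})
        (by
          intro t ht
          rw [Finset.mem_singleton] at ht
          rw [ht]
          exact hQ0H hzQ) hb' hb'' (fun t _ => Finset.Subset.refl _)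
        (fun t _ => by simp)
        (by
          intro t ht
          rw [Finset.mem_singleton] at ht
          rw [ht]
          refine tc_sub M (Cs c B z) _ ?_ (hUs z (hQ0U z hzQ)).2.1
          intro u hu
          simp only [Finset.mem_insert, Finset.mem_singleton] at hu
          rcases hu with rfl | rfl | rfl
          · exact mem_Cs c B z _ hb1
          · exact mem_Cs c B z _ hb'
          · exact mem_Cs c B z _ hb'')
        (by
          rw [Finset.sum_singleton, hc3])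
        (by
          rw [Finset.sum_singleton, Finset.card_singleton, one_smul]
          exact hzr b1 hb1)
      rw [Finset.card_singleton] at this
      omega
    · have hbig : ∀ z ∈ R, (Cs c B z).card - 1 < 2 := fun z hz => by
        by_contra hcon
        exact hbig ⟨z, hz, by omega⟩
      have hcard : 2 ≤ (R.filter (fun z => 1 ≤ (Cs c B z).card - 1)).card := by
        refine le_trans hcase ?_
        rw [Finset.card_filter]
        refine Finset.sum_le_sum (fun z hz => ?_)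
        have := hbig z hz
        split_ifs <;> omega
      obtain ⟨z1, hz1, z2, hz2, hne⟩ := Finset.one_lt_card.mp (show 1 <
        (R.filter (fun z => 1 ≤ (Cs c B z).card - 1)).card by omega)
      rw [Finset.mem_filter] at hz1 hz2
      have hzR : ∀ z ∈ ({z1, z2} : Finset V), z ∈ R := by
        intro z hz
        simp only [Finset.mem_insert, Finset.mem_singleton] at hz
        rcases hz with rfl | rfl
        · exact hz1.1
        · exact hz2.1
      have hzQ : ∀ z ∈ ({z1, z2} : Finset V), z ∈ Q0 := fun z hz =>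
        (Finset.mem_filter.mp (hzR z hz)).1
      obtain ⟨b', hb', b'', hb'', A, hA1, hA2, hA3, hA4⟩ := two c M B {z1, z2} b1 hb1
        (fun z hz => (hUs z (hQ0U z (hzQ z hz))).2.1) z1 z2 (by simp) (by simp) hne hz1.2 hz2.2
      have := hcore {z1, z2} b' b'' A (fun t ht => hQ0H (hzQ t ht)) hb' hb'' hA1 hA2 hA3 hA4
        (by
          rw [Finset.sum_pair hne, Finset.card_pair hne, two_smul]
          have e1 := (Finset.mem_filter.mp hz1.1).2 b1 hb1
          have e2 := (Finset.mem_filter.mp hz2.1).2 b1 hb1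
          have e3 := S'.add_mem e1 e2
          have e4 : c z1 b1 + c z2 b1 - (a + a) = c z1 b1 - a + (c z2 b1 - a) := by abel
          rw [e4]
          exact e3)
      rw [Finset.card_pair hne] at this
      omega
  · have hXsum : 2 * S'.index - 1 ≤ ∑ z ∈ X, ((Cs c B z).card - 1) := by
      omega
    have hXw : ∀ h ∈ X, c h b1 - a ∉ S' := by
      intro h hh hin
      rw [hX, Finset.mem_filter] at hh
      refine hh.2 (fun b hb => ?_)
      have hT := (hUs h (hQ0U h hh.1)).2.1 (c h b) (mem_Cs c B h b hb) (c h b1)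
        (mem_Cs c B h b1 hb1)
      have e1 := S'.add_mem (hP.le hT) hin
      simpa using e1
    set Q : Finset V := X.filter (fun z => 1 ≤ (Cs c B z).card - 1) with hQ
    have hQc : S'.index ≤ Q.card := by
      have e1 : ∑ z ∈ X, ((Cs c B z).card - 1) ≤ ∑ z ∈ Q, 2 := by
        have e0 := Finset.sum_filter (s := X) (fun z => 1 ≤ (Cs c B z).card - 1) (fun _ => 2)
        rw [hQ, e0]
        refine Finset.sum_le_sum (fun z hz => ?_)
        have hh : (Cs c B z).card - 1 ≤ 2 := hw2 z (hQ0U z (Finset.mem_filter.mp hz).1)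
        split_ifs <;> omega
      rw [Finset.sum_const, smul_eq_mul] at e1
      omega
    obtain ⟨I, hIQ, hIne, hIc, hIsum⟩ := hDAV V G S' Q (fun h => c h b1 - a) hQc
    have hIX : ∀ z ∈ I, z ∈ X := fun z hz => (Finset.mem_filter.mp (hIQ hz)).1
    have hI2 : 1 < I.card := by
      by_contra hle
      have : I.card = 1 := by
        have := Finset.card_pos.mpr hIne
        omega
      obtain ⟨h, rfl⟩ := Finset.card_eq_one.mp this
      rw [Finset.sum_singleton] at hIsum
      exact hXw h (hIX h (by simp)) hIsum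
    obtain ⟨z1, hz1, z2, hz2, hne⟩ := Finset.one_lt_card.mp hI2
    have hIQ0 : ∀ z ∈ I, z ∈ Q0 := fun z hz => (Finset.mem_filter.mp (hIX z hz)).1
    obtain ⟨b', hb', b'', hb'', A, hA1, hA2, hA3, hA4⟩ := two c M B I b1 hb1
      (fun z hz => (hUs z (hQ0U z (hIQ0 z hz))).2.1) z1 z2 hz1 hz2 hne
      (Finset.mem_filter.mp (hIQ hz1)).2 (Finset.mem_filter.mp (hIQ hz2)).2
    have := hcore I b' b'' A (fun t ht => hQ0H (hIQ0 t ht)) hb' hb'' hA1 hA2 hA3 hA4
      (by
        have : ∑ z ∈ I, c z b1 - I.card • a = ∑ z ∈ I, (c z b1 - a) := by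
          rw [Finset.sum_sub_distrib, Finset.sum_const]
        rw [this]
        exact hIsum)
    omega

end Pool.Agent.W724.ZT
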